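import Pool.Graph.R_seed8.Results.MP_d64882_nt.AlwaysSplit

/-!
# Fake subfields: split extensions with abelian kernel, in arbitrarily large degree

The library proves that every number field `K` which is a fake subfield of some number field is a
fake subfield of some `F` for which the extension `1 → N_F → Γ_F → G → 1` splits. Here: there are
such `F` of arbitrarily large degree for which moreover the kernel `N_F` is abelian, of exponent
dividing `|G|`.
-/

set_option autoImplicit false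

namespace Pool.Agent.Results.MP_d64882_nt.AbelianKernelLargeDegree

open NumberField Module IntermediateField
open Pool.Agent.R367.FS

/-- For Galois extensions `L ⊆ M` of `ℚ`, the kernel `Gal(M/L)` of the restriction
`Gal(M/ℚ) → Gal(L/ℚ)` is abelian, of exponent dividing `n`. -/
def AbelianKernel (n : ℕ) (L M : IntermediateField ℚ (AlgebraicClosure ℚ)) (hLM : L ≤ M) : Prop :=
  ∀ σ : M ≃ₐ[ℚ] M, (∀ x : L, σ (IntermediateField.inclusion hLM x) =
      IntermediateField.inclusion hLM x) →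
    (∀ τ : M ≃ₐ[ℚ] M, (∀ x : L, τ (IntermediateField.inclusion hLM x) =
      IntermediateField.inclusion hLM x) → σ * τ = τ * σ) ∧ σ ^ n = 1

/-- The group realised above `L`. -/
abbrev CD (n k : ℕ) : Type := Multiplicative (Fin k → ZMod n)

/-- The numerical part of the construction, for groups of order `n ^ 3 * s`. -/
theorem locSub_wreath' (L : Type) [Field L] [NumberField L] [IsGalois ℚ L] (K : Type) [Field K]
    [NumberField K] (ιK : K →ₐ[ℚ] L) (U : Subgroup (L ≃ₐ[ℚ] L))
    (hU : ∀ u ∈ U, ∃ x : K →ₐ[ℚ] L, act u x = x)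
    (M : Type) [Field M] [NumberField M] [Algebra L M] [IsScalarTower ℚ L M] [IsGalois ℚ M]
    (n : ℕ) (hn : n = Nat.card (L ≃ₐ[ℚ] L))
    (C : Type) [CommGroup C] [Finite C] (hC : ∀ c : C, c ^ n = 1) (s : ℕ) (hs : 0 < s)
    (hC3 : Nat.card C = n ^ 3 * s)
    (ε : (M ≃ₐ[ℚ] M) ≃* (C ≀ᵣ (L ≃ₐ[ℚ] L)))
    (hε : ∀ σ, (ε σ).right = σ.restrictNormal L)
    (F : Type) [Field F] [NumberField F] (ιF : F →ₐ[ℚ] M)
    (hF : ∀ σ : M ≃ₐ[ℚ] M, act σ ιF = ιF ↔ ε σ ∈ wU C U) : LocSub F K := by
  classical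
  have hn0 : 0 < n := hn ▸ Nat.card_pos
  set W := C ≀ᵣ (L ≃ₐ[ℚ] L) with hW
  have hWfin : Finite W := inferInstance
  obtain ⟨f, hf⟩ := emb_cosets ε (wU C U) ιF hF
  have hYfin : Finite (F →ₐ[ℚ] M) := Finite.of_equiv _ f.symm
  have hY : Nat.card (F →ₐ[ℚ] M) = Nat.card (W ⧸ wU C U) := Nat.card_congr f
  have hfix : ∀ γ : M ≃ₐ[ℚ] M, Nat.card {y : F →ₐ[ℚ] M // act γ y = y} =
      Nat.card {q : W ⧸ wU C U // ε γ • q = q} := by
    intro γ
    refine Nat.card_congr (f.subtypeEquiv fun y => ?_)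
    rw [← hf, f.injective.eq_iff]
  have hit : ∀ (γ : M ≃ₐ[ℚ] M) (l : ℕ), Nat.card {y : F →ₐ[ℚ] M // (act γ)^[l] y = y} =
      Nat.card {q : W ⧸ wU C U // ε (γ ^ l) • q = q} := by
    intro γ l
    rw [← hfix]
    refine Nat.card_congr (Equiv.subtypeEquivRight fun y => ?_)
    rw [act_iterate]
  -- degrees
  set m := finrank ℚ K with hm
  have hm0 : 0 < m := finrank_pos
  have hmn : m ∣ n := by
    let _ : Algebra K L := (ιK : K →+* L).toAlgebra
    have : IsScalarTower ℚ K L := IsScalarTower.of_algebraMap_eq fun x => (ιK.commutes x).symm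
    rw [hn, IsGalois.card_aut_eq_finrank, ← Module.finrank_mul_finrank ℚ K L]
    exact Dvd.intro _ rfl
  obtain ⟨k, hk⟩ := hmn
  have hcardY : Nat.card C ∣ Nat.card (F →ₐ[ℚ] M) := by
    have h1 := dvd_fix U (1 : W)
    rw [hY]
    refine h1.trans (dvd_of_eq ?_)
    exact Nat.card_congr (Equiv.subtypeUnivEquiv fun q => one_smul _ q)
  obtain ⟨t, ht⟩ := hcardY
  have hFdeg : finrank ℚ F = Nat.card (F →ₐ[ℚ] M) := (natCard_emb ιF).symm
  set r := (n * n) * (k * (s * t)) with hr
  have hFr : Nat.card (F →ₐ[ℚ] M) = r * m := by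
    rw [ht, hC3, hr]
    have h3 : n ^ 3 * s * t = (n * n) * (n * (s * t)) := by ring
    rw [h3, mul_assoc (n * n)]
    congr 1
    conv_lhs => rw [hk]
    ring
  have hpow : ∀ γ : M ≃ₐ[ℚ] M, γ ^ (n * n) = 1 := by
    intro γ
    apply ε.injective
    rw [map_pow, map_one]
    refine pow_eq_one n (fun g => ?_) hC _
    rw [hn]
    exact pow_card_eq_one'
  have hper : ∀ (γ : M ≃ₐ[ℚ] M) (y : F →ₐ[ℚ] M), Function.minimalPeriod (act γ) y ∣ n * n := by
    intro γ y
    rw [← Function.isPeriodicPt_iff_minimalPeriod_dvd]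
    change (act γ)^[_] y = y
    rw [act_iterate, hpow]
    rfl
  refine locSub_of ιF ((IsScalarTower.toAlgHom ℚ L M).comp ιK) r (n * n) (Nat.mul_pos hn0 hn0)
    (Dvd.intro _ rfl) (by rw [hFdeg, hFr]) fun γ => ?_
  refine ⟨orderOf (γ.restrictNormal L), ?_, ?_, ?_, hper γ, ?_⟩
  · intro y
    set l := Function.minimalPeriod (act γ) y with hl
    have h1 : act (γ ^ l) y = y := by
      rw [← act_iterate]
      exact Function.isPeriodicPt_minimalPeriod (act γ) y
    obtain ⟨g, hg⟩ := fix_conj U (ε (γ ^ l)) (f y) (by rw [← hf, h1])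
    rw [hε] at hg
    obtain ⟨x₀, hx₀⟩ := hU _ hg
    refine ⟨(IsScalarTower.toAlgHom ℚ L M).comp (act g x₀), ?_⟩
    rw [← Function.isPeriodicPt_iff_minimalPeriod_dvd]
    change (act γ)^[_] _ = _
    rw [act_iterate]
    ext z
    rw [act_apply]
    change (γ ^ l) (algebraMap L M (g (x₀ z))) = algebraMap L M (g (x₀ z))
    rw [← AlgEquiv.restrictNormal_commutes]
    congr 1
    have h2 := AlgHom.congr_fun hx₀ z
    rw [act_apply] at h2
    change g⁻¹ ((γ ^ l).restrictNormal L (g (x₀ z))) = x₀ z at h2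
    conv_rhs => rw [← h2]
    exact (AlgEquiv.apply_symm_apply g _).symm
  · have h1 := bad_count (act γ) (orderOf (γ.restrictNormal L)) (n * n) (Nat.card C)
      (Nat.mul_pos hn0 hn0) (hper γ) (fun l hl => by
        rw [hit, hY]
        refine fix_le U _ ?_
        rw [hε]
        intro h2
        apply hl
        rw [orderOf_dvd_iff_pow_eq_one]
        rw [← h2]
        exact (map_pow (AlgEquiv.restrictNormalHom L) γ l).symm)
    rw [hFr, hC3] at h1
    have h2 : n ^ 3 * Nat.card {y : F →ₐ[ℚ] M // ¬ orderOf (γ.restrictNormal L) ∣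
        Function.minimalPeriod (act γ) y} ≤ n ^ 3 * r := by
      refine (Nat.mul_le_mul_right _ (Nat.le_mul_of_pos_right (n ^ 3) hs)).trans (h1.trans ?_)
      have hmn' : m ≤ n := Nat.le_of_dvd hn0 ⟨k, hk⟩
      calc n * n * (r * m) ≤ n * n * (r * n) := by gcongr
        _ = n ^ 3 * r := by ring
    exact Nat.le_of_mul_le_mul_left h2 (by positivity)
  · refine period_dvd_count (act γ) (n * n) (fun y => ?_) fun l hl => ?_
    · exact Nat.pos_of_dvd_of_pos (hper γ y) (Nat.mul_pos hn0 hn0)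
    · rw [hit]
      refine Dvd.dvd.trans ?_ (dvd_fix U _)
      rw [hC3]
      exact ⟨n * s, by ring⟩
  · intro x
    rw [← Function.isPeriodicPt_iff_minimalPeriod_dvd]
    change (act γ)^[_] _ = _
    rw [act_iterate]
    obtain ⟨σ, rfl⟩ := act_surj ((IsScalarTower.toAlgHom ℚ L M).comp ιK) x
    ext z
    rw [act_apply, act_apply]
    change (γ ^ _) (σ (algebraMap L M (ιK z))) = σ (algebraMap L M (ιK z))
    rw [← AlgEquiv.restrictNormal_commutes, ← AlgEquiv.restrictNormal_commutes]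
    have h3 : (γ ^ orderOf (γ.restrictNormal L)).restrictNormal L = 1 := by
      have := map_pow (AlgEquiv.restrictNormalHom L) γ (orderOf (γ.restrictNormal L))
      change (γ ^ orderOf (γ.restrictNormal L)).restrictNormal L =
        (γ.restrictNormal L) ^ orderOf (γ.restrictNormal L) at this
      rw [this, pow_orderOf_eq_one]
    rw [h3]
    rfl

variable (K F : IntermediateField ℚ (AlgebraicClosure ℚ)) [NumberField K] [NumberField F]

/-- Every number field which is a fake subfield of some number field is a fake subfield of number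
fields of arbitrarily large degree for which the extension splits and has an abelian kernel. -/
theorem main' (h : FakeSub F K) (B : ℕ) :
    ∃ (F' : IntermediateField ℚ (AlgebraicClosure ℚ)) (_ : NumberField F'),
      FakeSub F' K ∧ B ≤ Module.finrank ℚ F' ∧ SplitExt F' K ∧
        AbelianKernel (Nat.card (GalClosure K ≃ₐ[ℚ] GalClosure K)) (GalClosure K)
          (GalClosure K ⊔ GalClosure F') le_sup_left := by
  classical
  obtain ⟨h1, h2⟩ := h
  have hU := fixed_pt K F h1
  have hU' := no_common_pt K F h2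
  set L := GalClosure K with hL
  have hnL : NumberField L := galClosure_nf K
  have hgL : IsGalois ℚ L := galClosure_gal K
  set n := Nat.card (L ≃ₐ[ℚ] L) with hn
  have hn0 : n ≠ 0 := Nat.card_pos.ne'
  have : NeZero n := ⟨hn0⟩
  have hn2 : 2 ≤ n := by
    by_contra hlt
    have hn1 : Nat.card (L ≃ₐ[ℚ] L) = 1 := by omega
    have hsub : Subsingleton (L ≃ₐ[ℚ] L) := (Nat.card_eq_one_iff_unique.1 hn1).1
    refine hU' (inclusion (le_galClosure K)) fun u _ => ?_
    obtain ⟨x, hx⟩ := hU u ‹_›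
    have hu1 : u = 1 := Subsingleton.elim _ _
    subst hu1
    ext z
    rfl
  obtain ⟨M, i1, i2, i3, i4, i5, ε, hε⟩ := step L (CD n (3 + B))
  have hCn : ∀ c : CD n (3 + B), c ^ n = 1 := by
    intro c
    apply Multiplicative.toAdd.injective
    funext i
    change n • (Multiplicative.toAdd c) i = 0
    rw [nsmul_eq_mul, CharP.cast_eq_zero, zero_mul]
  have hC3 : Nat.card (CD n (3 + B)) = n ^ 3 * n ^ B := by
    change Nat.card (Fin (3 + B) → ZMod n) = n ^ 3 * n ^ B
    rw [Nat.card_fun, Nat.card_zmod, Nat.card_fin, pow_add]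
  -- the embedding of `M`
  let j₀ : M →ₐ[L] AlgebraicClosure ℚ := IsAlgClosed.lift
  let j : M →ₐ[ℚ] AlgebraicClosure ℚ := RingHom.toRatAlgHom (j₀ : M →+* AlgebraicClosure ℚ)
  have hj : ∀ x : L, j (algebraMap L M x) = x := fun x => j₀.commutes x
  let H : Subgroup (M ≃ₐ[ℚ] M) := (wU (CD n (3 + B)) (imU K F)).comap ε.toMonoidHom
  let F₀ : IntermediateField ℚ M := fixedField H
  let F' : IntermediateField ℚ (AlgebraicClosure ℚ) := F₀.map j
  let e : F₀ ≃ₐ[ℚ] F' := equivMap F₀ j
  have hfdF' : FiniteDimensional ℚ F' := Module.Finite.equiv e.toLinearEquiv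
  have hnF' : NumberField F' := nf_of_fd F'
  have hmemH : ∀ σ : M ≃ₐ[ℚ] M, (∀ y ∈ F₀, σ y = y) ↔ ε σ ∈ wU (CD n (3 + B)) (imU K F) := by
    intro σ
    have h3 : fixingSubgroup F₀ = H := fixingSubgroup_fixedField H
    constructor
    · intro h4
      have h5 : σ ∈ fixingSubgroup F₀ := (mem_fixingSubgroup_iff F₀ σ).2 h4
      rw [h3] at h5
      exact h5
    · intro h4
      have h5 : σ ∈ fixingSubgroup F₀ := by rw [h3]; exact h4
      exact (mem_fixingSubgroup_iff F₀ σ).1 h5
  let ιF : F' →ₐ[ℚ] M := F₀.val.comp (e.symm : F' →ₐ[ℚ] F₀)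
  have hιF : ∀ z : F', j (ιF z) = z := by
    intro z
    obtain ⟨y, rfl⟩ := e.surjective z
    change j (e.symm (e y) : F₀) = _
    rw [e.symm_apply_apply]
    rfl
  have hιF' : ∀ z : F', ιF z ∈ F₀ := fun z => (e.symm z).2
  have hact : ∀ σ : M ≃ₐ[ℚ] M, act σ ιF = ιF ↔ ε σ ∈ wU (CD n (3 + B)) (imU K F) := by
    intro σ
    rw [← hmemH]
    constructor
    · intro h3 y hy
      have h4 := AlgHom.congr_fun h3 (e ⟨y, hy⟩)
      have h5 : ιF (e ⟨y, hy⟩) = y := by
        change ((e.symm (e ⟨y, hy⟩) : F₀) : M) = y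
        rw [e.symm_apply_apply]
      have h6 : σ (ιF (e ⟨y, hy⟩)) = ιF (e ⟨y, hy⟩) := h4
      rw [h5] at h6
      exact h6
    · intro h3
      ext z
      exact h3 _ (hιF' z)
  refine ⟨F', hnF', ⟨?_, ?_⟩, ?_, ?_⟩
  · exact locSub_wreath' L K (inclusion (le_galClosure K)) (imU K F) hU M n hn (CD n (3 + B)) hCn
      (n ^ B) (by positivity) hC3 ε hε F' ιF hact
  · intro σ hσ
    have h3 : ∀ z : K, ∃ y ∈ F₀, σ (j y) = z := by
      intro z
      obtain ⟨w, hw, hw'⟩ := hσ z.2
      obtain ⟨y, hy, rfl⟩ := hw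
      exact ⟨y, hy, hw'⟩
    have h4 : ∀ z : K, (((σ.symm : AlgebraicClosure ℚ →ₐ[ℚ] AlgebraicClosure ℚ).comp K.val) z) ∈ L :=
      fun z => emb_mem K _ z
    let x : K →ₐ[ℚ] L :=
      ((σ.symm : AlgebraicClosure ℚ →ₐ[ℚ] AlgebraicClosure ℚ).comp K.val).codRestrict _ h4
    refine hU' x fun u hu => ?_
    ext z
    obtain ⟨y, hy, hyz⟩ := h3 z
    have h5 : algebraMap L M (x z) = y := by
      apply j.injective
      change j (algebraMap L M (x z)) = j y
      rw [hj]
      change σ.symm z = j y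
      rw [← hyz, σ.symm_apply_apply]
    have h6 : ε (ε.symm ⟨1, u⟩) ∈ wU (CD n (3 + B)) (imU K F) := by
      rw [ε.apply_symm_apply]
      exact ⟨hu, fun _ _ => rfl⟩
    have h7 := (hmemH (ε.symm ⟨1, u⟩)).2 h6 y hy
    have h8 : (ε.symm ⟨1, u⟩).restrictNormal L = u := by
      rw [← hε, ε.apply_symm_apply]
    have h9 := AlgEquiv.restrictNormal_commutes (ε.symm ⟨1, u⟩) L (x z)
    rw [h8, h5, h7, ← h5] at h9
    exact congrArg _ ((algebraMap L M).injective h9)
  · -- the degree
    obtain ⟨f, hf⟩ := emb_cosets ε (wU (CD n (3 + B)) (imU K F)) ιF hact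
    have hY : Nat.card (F' →ₐ[ℚ] M) = Nat.card ((CD n (3 + B) ≀ᵣ (L ≃ₐ[ℚ] L)) ⧸
        wU (CD n (3 + B)) (imU K F)) := Nat.card_congr f
    have h1 := dvd_fix (imU K F) (1 : CD n (3 + B) ≀ᵣ (L ≃ₐ[ℚ] L))
    have h2 : Nat.card {q : (CD n (3 + B) ≀ᵣ (L ≃ₐ[ℚ] L)) ⧸ wU (CD n (3 + B)) (imU K F) //
        (1 : CD n (3 + B) ≀ᵣ (L ≃ₐ[ℚ] L)) • q = q} = Nat.card ((CD n (3 + B) ≀ᵣ (L ≃ₐ[ℚ] L)) ⧸
        wU (CD n (3 + B)) (imU K F)) :=
      Nat.card_congr (Equiv.subtypeUnivEquiv fun q => one_smul _ q)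
    rw [h2, ← hY, natCard_emb ιF, hC3] at h1
    have h3 := Nat.le_of_dvd finrank_pos h1
    have h4 : B < n ^ B := Nat.lt_pow_self hn2
    have h5 : n ^ B ≤ n ^ 3 * n ^ B := Nat.le_mul_of_pos_left _ (by positivity)
    omega
  · -- the extension splits
    obtain ⟨R, hR⟩ : ∃ R : IntermediateField ℚ (AlgebraicClosure ℚ), R = j.fieldRange := ⟨_, rfl⟩
    have hjR : ∀ y : M, j y ∈ R := fun y => by rw [hR]; exact ⟨y, rfl⟩
    let j' : M →ₐ[ℚ] R := j.codRestrict R.toSubalgebra hjR
    have hj'b : Function.Bijective j' := by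
      constructor
      · exact j'.toRingHom.injective
      · rintro ⟨z, hz⟩
        have hz' := hz
        rw [hR] at hz'
        obtain ⟨y, hy⟩ := hz'
        exact ⟨y, Subtype.ext hy⟩
    let ej : M ≃ₐ[ℚ] R := AlgEquiv.ofBijective j' hj'b
    have hjn : Normal ℚ R := Normal.of_algEquiv ej
    have hLj : L ≤ R := fun z hz => by
      have := hjR (algebraMap L M ⟨z, hz⟩)
      rw [hj] at this
      exact this
    have hFj : F' ≤ R := by
      rintro _ ⟨y, -, rfl⟩
      exact hjR y
    have hFj' : GalClosure F' ≤ R :=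
      (@normalClosure_le_iff_of_normal ℚ (AlgebraicClosure ℚ) _ _ _ _ F' R hjn).2 hFj
    set N := L ⊔ GalClosure F' with hN
    have hNj : N ≤ R := sup_le hLj hFj'
    have hNn : Normal ℚ N := normal_sup ..
    let i : N →ₐ[ℚ] M := (ej.symm : R →ₐ[ℚ] M).comp (inclusion hNj)
    have hi : ∀ z : N, j (i z) = z := by
      intro z
      have h3 := AlgEquiv.apply_symm_apply ej (inclusion hNj z)
      exact congrArg (fun y : R => (y : AlgebraicClosure ℚ)) h3
    have hiL : ∀ x : L, i (inclusion (le_sup_left : L ≤ N) x) = algebraMap L M x := by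
      intro x
      apply j.injective
      change j _ = j _
      rw [hi, hj]
      rfl
    let _ : Algebra N M := (i : N →+* M).toAlgebra
    have : IsScalarTower ℚ N M := IsScalarTower.of_algebraMap_eq fun x => (i.commutes x).symm
    let ρ : (M ≃ₐ[ℚ] M) →* (N ≃ₐ[ℚ] N) := AlgEquiv.restrictNormalHom N
    have hρ : ∀ (τ : M ≃ₐ[ℚ] M) (z : N), i (ρ τ z) = τ (i z) := fun τ z =>
      AlgEquiv.restrictNormal_commutes τ N z
    let s : (L ≃ₐ[ℚ] L) →* (N ≃ₐ[ℚ] N) :=
      (ρ.comp ε.symm.toMonoidHom).comp RegularWreathProduct.inl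
    have hs : ∀ (g : L ≃ₐ[ℚ] L) (x : L), s g (inclusion (le_sup_left : L ≤ N) x) =
        inclusion (le_sup_left : L ≤ N) (g x) := by
      intro g x
      apply i.injective
      change i (ρ (ε.symm (RegularWreathProduct.inl g)) _) = i _
      rw [hρ, hiL, hiL, ← AlgEquiv.restrictNormal_commutes, ← hε, ε.apply_symm_apply]
      rfl
    refine ⟨⟨s.range, fun g => ⟨s g, ⟨⟨g, rfl⟩, hs g⟩, ?_⟩⟩, ?_⟩
    · rintro _ ⟨⟨g', rfl⟩, hg'⟩
      have h3 : g' = g := by
        ext x
        have h4 := (hs g' x).symm.trans (hg' x)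
        exact congrArg (fun y : N => (y : AlgebraicClosure ℚ)) h4
      rw [h3]
    · -- the kernel is abelian
      have hlift : ∀ σ : N ≃ₐ[ℚ] N, (∀ x : L, σ (inclusion (le_sup_left : L ≤ N) x) =
          inclusion (le_sup_left : L ≤ N) x) → ∃ w : CD n (3 + B) ≀ᵣ (L ≃ₐ[ℚ] L),
          w.right = 1 ∧ ρ (ε.symm w) = σ := by
        intro σ hσ
        obtain ⟨τ, hτ⟩ := AlgEquiv.restrictNormalHom_surjective (F := ℚ) (K₁ := N) M σ
        refine ⟨ε τ, ?_, by rw [ε.symm_apply_apply]; exact hτ⟩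
        rw [hε]
        ext x
        apply congrArg (fun y : L => (y : AlgebraicClosure ℚ))
        apply (algebraMap L M).injective
        rw [AlgEquiv.restrictNormal_commutes, ← hiL, ← hρ]
        have hτ' : ρ τ = σ := hτ
        rw [hτ', hσ, hiL]
        rfl
      have hw : ∀ w : CD n (3 + B) ≀ᵣ (L ≃ₐ[ℚ] L), w.right = 1 → w = ⟨w.left, 1⟩ := by
        intro w hw
        ext x
        · rfl
        · rw [hw]
      intro σ hσ
      obtain ⟨w, hw1, rfl⟩ := hlift σ hσ
      refine ⟨?_, ?_⟩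
      · intro σ' hσ'
        obtain ⟨w', hw1', rfl⟩ := hlift σ' hσ'
        rw [← map_mul, ← map_mul, ← map_mul, ← map_mul]
        congr 2
        rw [hw w hw1, hw w' hw1']
        ext y
        · simp [mul_comm]
        · simp
      · rw [← map_pow, ← map_pow]
        have h5 : w ^ n = 1 := by
          rw [hw w hw1]
          have h6 : ∀ m : ℕ, (⟨w.left, 1⟩ : CD n (3 + B) ≀ᵣ (L ≃ₐ[ℚ] L)) ^ m =
              ⟨fun x => w.left x ^ m, 1⟩ := by
            intro m
            induction m with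
            | zero =>
              rw [pow_zero]
              ext x
              · simp
              · rfl
            | succ m ih =>
              rw [pow_succ, ih]
              ext x
              · simp [pow_succ]
              · simp
          rw [h6]
          ext x
          · simp [hCn]
          · rfl
        rw [h5, map_one, map_one]


/-- **Split extensions with abelian kernel, in arbitrarily large degree.** If the number field `K` is
a fake subfield of some number field, then for every `B` it is a fake subfield of a number field `F'`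
of degree at least `B` for which the extension `1 → N_{F'} → Γ_{F'} → G → 1` splits and its kernel
`N_{F'} = Gal(M_{F'}/Ω_K)` is abelian of exponent dividing `|G|`, `G = Gal(Ω_K/ℚ)`. -/
theorem result (K : IntermediateField ℚ (AlgebraicClosure ℚ)) [NumberField K]
    (h : ∃ (F : IntermediateField ℚ (AlgebraicClosure ℚ)) (_ : NumberField F), FakeSub F K)
    (B : ℕ) :
    ∃ (F' : IntermediateField ℚ (AlgebraicClosure ℚ)) (_ : NumberField F'),
      FakeSub F' K ∧ B ≤ Module.finrank ℚ F' ∧ SplitExt F' K ∧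
        AbelianKernel (Nat.card (GalClosure K ≃ₐ[ℚ] GalClosure K)) (GalClosure K)
          (GalClosure K ⊔ GalClosure F') le_sup_left := by
  obtain ⟨F, hF, h⟩ := h
  exact main' K F h B

end Pool.Agent.Results.MP_d64882_nt.AbelianKernelLargeDegree
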